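import Mathlib

open FirstOrder FirstOrder.Language FirstOrder.Language.Structure Filter

universe u

noncomputable section

namespace Pool.Agent.Results.MP_7a870e_al.FiniteSignatureK

/-- An algebraic system of signature `L`: a nonempty set with operations and relations named by
the symbols of `L`. -/
structure Sys (L : FirstOrder.Language.{0, 0}) : Type (u + 1) where
  carrier : Type u
  [str : L.Structure carrier]
  [ne : Nonempty carrier]

attribute [instance] Sys.str Sys.ne

instance (L : FirstOrder.Language.{0, 0}) : CoeSort (Sys.{u} L) (Type u) := ⟨Sys.carrier⟩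

variable {L : FirstOrder.Language.{0, 0}}

/-- The direct product of a family of systems (the empty family gives the trivial system). -/
def Sys.pi {ι : Type u} (A : ι → Sys.{u} L) : Sys.{u} L where
  carrier := ∀ i, A i
  str :=
    { funMap := fun f x i => funMap f fun j => x j i
      RelMap := fun r x => ∀ i, RelMap r fun j => x j i }
  ne := inferInstance

/-- The ultraproduct of a family of systems (Mathlib's ultraproduct structure). -/
def Sys.ultra {ι : Type u} (U : Ultrafilter ι) (A : ι → Sys.{u} L) : Sys.{u} L where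
  carrier := (U : Filter ι).Product fun i => A i
  str := inferInstance
  ne := inferInstance

/-- A class of systems is a quasivariety if it is closed under isomorphic copies and subsystems
(`A` embeds in `B`), direct products and ultraproducts. -/
structure IsQuasivariety (C : Set (Sys.{u} L)) : Prop where
  sub : ∀ A B : Sys.{u} L, Nonempty (A ↪[L] B) → B ∈ C → A ∈ C
  prod : ∀ (ι : Type u) (A : ι → Sys.{u} L), (∀ i, A i ∈ C) → Sys.pi A ∈ C
  ultra : ∀ (ι : Type u) (U : Ultrafilter ι) (A : ι → Sys.{u} L), (∀ i, A i ∈ C) →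
    Sys.ultra U A ∈ C

theorem pi_funMap {ι : Type u} (A : ι → Sys.{u} L) {n} (f : L.Functions n)
    (x : Fin n → Sys.pi A) (i : ι) :
    (funMap f x : Sys.pi A) i = funMap f fun j => x j i := rfl

theorem pi_relMap {ι : Type u} (A : ι → Sys.{u} L) {n} (r : L.Relations n)
    (x : Fin n → Sys.pi A) : RelMap r x ↔ ∀ i, RelMap r fun j => x j i := Iff.rfl

/-- the class of an element of the product of a family in the ultraproduct -/
def um {ι : Type u} {U : Ultrafilter ι} {A : ι → Sys.{u} L} (x : ∀ i, A i) : Sys.ultra U A :=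
  Quotient.mk _ x

theorem um_eq {ι : Type u} {U : Ultrafilter ι} {A : ι → Sys.{u} L} {x y : ∀ i, A i} :
    (um x : Sys.ultra U A) = um y ↔ ∀ᶠ i in U, x i = y i := Quotient.eq

theorem um_surj {ι : Type u} {U : Ultrafilter ι} {A : ι → Sys.{u} L} (a : Sys.ultra U A) :
    ∃ x, um x = a := Quotient.exists_rep a

theorem um_surj_fun {ι : Type u} {U : Ultrafilter ι} {A : ι → Sys.{u} L} {n : Type}
    (a : n → Sys.ultra U A) : ∃ x : n → ∀ i, A i, a = fun j => um (x j) := by
  choose x hx using fun j => um_surj (a j)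
  exact ⟨x, funext fun j => (hx j).symm⟩

theorem ultra_funMap {ι : Type u} {U : Ultrafilter ι} (A : ι → Sys.{u} L) {n}
    (f : L.Functions n) (x : Fin n → ∀ i, A i) :
    (funMap f fun j => (um (x j) : Sys.ultra U A)) = um fun i => funMap f fun j => x j i :=
  Ultraproduct.funMap_cast f x

theorem ultra_relMap {ι : Type u} {U : Ultrafilter ι} (A : ι → Sys.{u} L) {n}
    (r : L.Relations n) (x : Fin n → ∀ i, A i) :
    (RelMap r fun j => (um (x j) : Sys.ultra U A)) ↔ ∀ᶠ i in U, RelMap r fun j => x j i :=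
  relMap_quotient_mk' (s := (U : Filter ι).productSetoid fun i => A i) r x

/-- A quasivariety of systems of signature `L`. -/
structure Quasivariety (L : FirstOrder.Language.{0, 0}) : Type (u + 1) where
  cls : Set (Sys.{u} L)
  isQ : IsQuasivariety cls

/-- `Lq K`: the subquasivarieties of the quasivariety `K`. -/
def Lq (K : Quasivariety.{u} L) : Type (u + 1) := {X : Quasivariety.{u} L // X.cls ⊆ K.cls}

/-- Subquasivarieties are ordered by inclusion. -/
instance (K : Quasivariety.{u} L) : PartialOrder (Lq K) where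
  le X Y := X.1.cls ⊆ Y.1.cls
  le_refl X := Set.Subset.refl _
  le_trans X Y Z := Set.Subset.trans
  le_antisymm X Y h1 h2 := by
    obtain ⟨⟨x, hx⟩, hx'⟩ := X
    obtain ⟨⟨y, hy⟩, hy'⟩ := Y
    have : x = y := Set.Subset.antisymm h1 h2
    subst this
    rfl

/-- The intersection of two quasivarieties. -/
def Quasivariety.meet (X Y : Quasivariety.{u} L) : Quasivariety.{u} L where
  cls := X.cls ∩ Y.cls
  isQ :=
    { sub := fun A B h hB => ⟨X.isQ.sub A B h hB.1, Y.isQ.sub A B h hB.2⟩
      prod := fun ι A h => ⟨X.isQ.prod ι A fun i => (h i).1, Y.isQ.prod ι A fun i => (h i).2⟩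
      ultra := fun ι U A h =>
        ⟨X.isQ.ultra ι U A fun i => (h i).1, Y.isQ.ultra ι U A fun i => (h i).2⟩ }

/-- The least quasivariety containing two quasivarieties. -/
def Quasivariety.join (X Y : Quasivariety.{u} L) : Quasivariety.{u} L where
  cls := {A | ∀ Z : Quasivariety.{u} L, X.cls ⊆ Z.cls → Y.cls ⊆ Z.cls → A ∈ Z.cls}
  isQ :=
    { sub := fun A B h hB Z hX hY => Z.isQ.sub A B h (hB Z hX hY)
      prod := fun ι A h Z hX hY => Z.isQ.prod ι A fun i => h i Z hX hY
      ultra := fun ι U A h Z hX hY => Z.isQ.ultra ι U A fun i => h i Z hX hY }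

/-- The lattice structure of `Lq K` (it is determined by the order). -/
instance (K : Quasivariety.{u} L) : Lattice (Lq K) where
  inf X Y := ⟨X.1.meet Y.1, fun _ hA => X.2 hA.1⟩
  inf_le_left _ _ _ hA := hA.1
  inf_le_right _ _ _ hA := hA.2
  le_inf _ _ _ h1 h2 _ hA := ⟨h1 hA, h2 hA⟩
  sup X Y := ⟨X.1.join Y.1, fun _ hA => hA K X.2 Y.2⟩
  le_sup_left _ _ _ hA _ hX _ := hX hA
  le_sup_right _ _ _ hA _ _ hY := hY hA
  sup_le _ _ Z h1 h2 _ hA := hA Z.1 h1 h2

/-- systems in which every failing atomic formula still fails under some homomorphism to a member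
of `X` -/
def Sep (X : Set (Sys.{u} L)) : Set (Sys.{u} L) :=
  {B | (∀ a b : B, a ≠ b → ∃ A ∈ X, ∃ h : B →[L] A, h a ≠ h b) ∧
    ∀ (n : ℕ) (r : L.Relations n) (x : Fin n → B), ¬ RelMap r x →
      ∃ A ∈ X, ∃ h : B →[L] A, ¬ RelMap r (h ∘ x)}

theorem subset_Sep (X : Set (Sys.{u} L)) : X ⊆ Sep X := fun B hB =>
  ⟨fun _ _ hab => ⟨B, hB, Hom.id L B, hab⟩, fun _ _ _ hr => ⟨B, hB, Hom.id L B, hr⟩⟩

theorem Sep_mono {X Y : Set (Sys.{u} L)} (h : X ⊆ Y) : Sep X ⊆ Sep Y := fun _ hB =>
  ⟨fun a b hab => let ⟨A, hA, g, hg⟩ := hB.1 a b hab; ⟨A, h hA, g, hg⟩,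
    fun n r x hr => let ⟨A, hA, g, hg⟩ := hB.2 n r x hr; ⟨A, h hA, g, hg⟩⟩

theorem Sep_Sep (X : Set (Sys.{u} L)) : Sep (Sep X) ⊆ Sep X := by
  intro B hB
  constructor
  · intro a b hab
    obtain ⟨A, hA, g, hg⟩ := hB.1 a b hab
    obtain ⟨A', hA', g', hg'⟩ := hA.1 _ _ hg
    exact ⟨A', hA', g'.comp g, hg'⟩
  · intro n r x hr
    obtain ⟨A, hA, g, hg⟩ := hB.2 n r x hr
    obtain ⟨A', hA', g', hg'⟩ := hA.2 n r _ hg
    exact ⟨A', hA', g'.comp g, hg'⟩

theorem IsQuasivariety.sep_subset {C : Set (Sys.{u} L)} (hC : IsQuasivariety C) : Sep C ⊆ C := by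
  intro B hB
  let ι : Type u := {p : B × B // p.1 ≠ p.2} ⊕
    {q : Σ n, L.Relations n × (Fin n → B) // ¬ RelMap q.2.1 q.2.2}
  have key : ∀ i : ι, ∃ A ∈ C, ∃ h : B →[L] A,
      Sum.elim (fun p : {p : B × B // p.1 ≠ p.2} => h p.1.1 ≠ h p.1.2)
        (fun q : {q : Σ n, L.Relations n × (Fin n → B) // ¬ RelMap q.2.1 q.2.2} =>
          ¬ RelMap q.1.2.1 (h ∘ q.1.2.2)) i := by
    rintro (p | q)
    · exact hB.1 _ _ p.2
    · exact hB.2 _ _ _ q.2
  choose A hA h hh using key
  refine hC.sub B (Sys.pi A) ⟨?_⟩ (hC.prod ι A hA)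
  refine
    { toFun := fun b i => h i b
      inj' := ?_
      map_fun' := ?_
      map_rel' := ?_ }
  · intro a b hab
    by_contra hne
    exact hh (Sum.inl ⟨(a, b), hne⟩) (congrFun hab _)
  · intro n f x
    funext i
    exact (h i).map_fun f x
  · intro n r x
    constructor
    · intro hr
      by_contra hne
      exact hh (Sum.inr ⟨⟨n, r, x⟩, hne⟩) (hr (Sum.inr ⟨⟨n, r, x⟩, hne⟩))
    · intro hr i
      exact (h i).map_rel r x hr

theorem ultra_hom {ι : Type u} {U : Ultrafilter ι} {B A : ι → Sys.{u} L} (h : ∀ i, B i → A i)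
    (hh : ∀ᶠ i in U, ∃ g : B i →[L] A i, ∀ x, g x = h i x) :
    ∃ H : Sys.ultra U B →[L] Sys.ultra U A,
      ∀ x : ∀ i, B i, H (um x) = um fun i => h i (x i) := by
  let F : Sys.ultra U B → Sys.ultra U A :=
    Quotient.map' (fun (x : ∀ i, B i) (i : ι) => h i (x i))
      (fun x y hxy => Filter.Eventually.mono hxy fun i hi => congrArg (h i) hi)
  have hF : ∀ x : ∀ i, B i, F (um x) = um fun i => h i (x i) := fun x => rfl
  refine ⟨{ toFun := F, map_fun' := ?_, map_rel' := ?_ }, hF⟩
  · intro n f x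
    obtain ⟨y, rfl⟩ := um_surj_fun x
    have e : (F ∘ fun j => (um (y j) : Sys.ultra U B)) = fun j => um fun i => h i (y j i) :=
      funext fun j => hF (y j)
    rw [e, ultra_funMap, ultra_funMap, hF, um_eq]
    filter_upwards [hh] with i ⟨g, hg⟩
    rw [← hg, g.map_fun]
    congr 1
    funext j
    exact hg _
  · intro n r x hx
    obtain ⟨y, rfl⟩ := um_surj_fun x
    have e : (F ∘ fun j => (um (y j) : Sys.ultra U B)) = fun j => um fun i => h i (y j i) :=
      funext fun j => hF (y j)
    rw [e, ultra_relMap]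
    rw [ultra_relMap] at hx
    filter_upwards [hh, hx] with i ⟨g, hg⟩ hi
    have := g.map_rel r _ hi
    convert this using 2
    exact (hg _).symm

theorem ultra_emb {ι : Type u} {U : Ultrafilter ι} {B A : ι → Sys.{u} L} (h : ∀ i, B i → A i)
    (hh : ∀ᶠ i in U, ∃ g : B i ↪[L] A i, ∀ x, g x = h i x) :
    Nonempty (Sys.ultra U B ↪[L] Sys.ultra U A) := by
  obtain ⟨H, hH⟩ := ultra_hom h (hh.mono fun i ⟨g, hg⟩ => ⟨g.toHom, hg⟩)
  refine ⟨{ toFun := H, inj' := ?_, map_fun' := fun f x => H.map_fun f x, map_rel' := ?_ }⟩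
  · intro a b hab
    obtain ⟨x, rfl⟩ := um_surj a
    obtain ⟨y, rfl⟩ := um_surj b
    rw [hH, hH, um_eq] at hab
    rw [um_eq]
    filter_upwards [hh, hab] with i ⟨g, hg⟩ hi
    rw [← hg, ← hg] at hi
    exact g.injective hi
  · intro n r x
    refine ⟨fun hx => ?_, fun hx => H.map_rel r x hx⟩
    obtain ⟨y, rfl⟩ := um_surj_fun x
    have e : (H ∘ fun j => (um (y j) : Sys.ultra U B)) = fun j => um fun i => h i (y j i) :=
      funext fun j => hH (y j)
    change RelMap r (H ∘ fun j => (um (y j) : Sys.ultra U B)) at hx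
    rw [e, ultra_relMap] at hx
    rw [ultra_relMap]
    filter_upwards [hh, hx] with i ⟨g, hg⟩ hi
    rw [← g.map_rel]
    convert hi using 2
    exact hg _

/-- the trivial system -/
def triv (L : FirstOrder.Language.{0, 0}) : Sys.{u} L :=
  Sys.pi (fun i : PEmpty.{u + 1} => i.elim)

theorem IsQuasivariety.triv_mem {C : Set (Sys.{u} L)} (hC : IsQuasivariety C) : triv L ∈ C :=
  hC.prod _ _ fun i => i.elim

theorem IsQuasivariety.ultra_eventually {C : Set (Sys.{u} L)} (hC : IsQuasivariety C)
    {ι : Type u} {U : Ultrafilter ι} {A : ι → Sys.{u} L} (h : ∀ᶠ i in U, A i ∈ C) :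
    Sys.ultra U A ∈ C := by
  have key : ∀ i, ∃ A' ∈ C, ∃ h : A i → A', (A i ∈ C → ∃ g : A i ↪[L] A', ∀ x, g x = h x) := by
    intro i
    by_cases hi : A i ∈ C
    · exact ⟨A i, hi, id, fun _ => ⟨Embedding.refl L _, fun x => rfl⟩⟩
    · exact ⟨triv L, hC.triv_mem, fun _ => Classical.arbitrary _, fun h' => absurd h' hi⟩
  choose A' hA' g hg using key
  exact hC.sub _ _ (ultra_emb g (h.mono fun i hi => hg i hi)) (hC.ultra _ U A' hA')

theorem Sep_isQuasivariety {X : Set (Sys.{u} L)}
    (hU : ∀ (ι : Type u) (U : Ultrafilter ι) (A : ι → Sys.{u} L), (∀ i, A i ∈ X) →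
      Sys.ultra U A ∈ Sep X) : IsQuasivariety (Sep X) where
  sub := by
    rintro A B ⟨e⟩ hB
    constructor
    · intro a b hab
      obtain ⟨D, hD, g, hg⟩ := hB.1 (e a) (e b) (fun h => hab (e.injective h))
      exact ⟨D, hD, g.comp e.toHom, hg⟩
    · intro n r x hr
      obtain ⟨D, hD, g, hg⟩ := hB.2 n r (e ∘ x) (fun h => hr ((e.map_rel r x).1 h))
      exact ⟨D, hD, g.comp e.toHom, hg⟩
  prod := by
    intro ι A hA
    have pr : ∀ i, ∃ p : Sys.pi A →[L] A i, ∀ x, p x = x i := fun i =>
      ⟨{ toFun := fun x => x i, map_fun' := fun _ _ => rfl, map_rel' := fun _ _ h => h i },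
        fun _ => rfl⟩
    constructor
    · intro a b hab
      obtain ⟨i, hi⟩ := Function.ne_iff.1 hab
      obtain ⟨p, hp⟩ := pr i
      obtain ⟨D, hD, g, hg⟩ := (hA i).1 _ _ hi
      refine ⟨D, hD, g.comp p, ?_⟩
      simpa [hp] using hg
    · intro n r x hr
      rw [pi_relMap] at hr
      push Not at hr
      obtain ⟨i, hi⟩ := hr
      obtain ⟨p, hp⟩ := pr i
      obtain ⟨D, hD, g, hg⟩ := (hA i).2 n r _ hi
      refine ⟨D, hD, g.comp p, ?_⟩
      have e : (⇑(g.comp p) ∘ x) = ⇑g ∘ fun j => x j i := funext fun j => by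
        simp [hp]
      rw [e]
      exact hg
  ultra := by
    intro ι U B hB
    apply Sep_Sep
    constructor
    · intro a b hab
      obtain ⟨x, rfl⟩ := um_surj a
      obtain ⟨y, rfl⟩ := um_surj b
      rw [Ne, um_eq, ← Ultrafilter.eventually_not] at hab
      obtain ⟨i0, hi0⟩ := hab.exists
      obtain ⟨A0, hA0, -⟩ := (hB i0).1 _ _ hi0
      have key : ∀ i, ∃ A ∈ X, ∃ h : B i → A,
          (x i ≠ y i → (∃ g : B i →[L] A, ∀ z, g z = h z) ∧ h (x i) ≠ h (y i)) := by
        intro i
        by_cases hi : x i = y i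
        · exact ⟨A0, hA0, fun _ => Classical.arbitrary _, fun h' => absurd hi h'⟩
        · obtain ⟨A, hA, g, hg⟩ := (hB i).1 _ _ hi
          exact ⟨A, hA, g, fun _ => ⟨⟨g, fun _ => rfl⟩, hg⟩⟩
      choose A hA h hh using key
      obtain ⟨H, hH⟩ := ultra_hom h (hab.mono fun i hi => (hh i hi).1)
      refine ⟨_, hU ι U A hA, H, ?_⟩
      rw [hH, hH, Ne, um_eq, ← Ultrafilter.eventually_not]
      exact hab.mono fun i hi => (hh i hi).2
    · intro n r x hr
      obtain ⟨y, rfl⟩ := um_surj_fun x
      rw [ultra_relMap, ← Ultrafilter.eventually_not] at hr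
      obtain ⟨i0, hi0⟩ := hr.exists
      obtain ⟨A0, hA0, -⟩ := (hB i0).2 _ _ _ hi0
      have key : ∀ i, ∃ A ∈ X, ∃ h : B i → A,
          ((¬ RelMap r fun j => y j i) → (∃ g : B i →[L] A, ∀ z, g z = h z) ∧
            ¬ RelMap r fun j => h (y j i)) := by
        intro i
        by_cases hi : RelMap r fun j => y j i
        · exact ⟨A0, hA0, fun _ => Classical.arbitrary _, fun h' => absurd hi h'⟩
        · obtain ⟨A, hA, g, hg⟩ := (hB i).2 _ _ _ hi
          exact ⟨A, hA, g, fun _ => ⟨⟨g, fun _ => rfl⟩, hg⟩⟩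
      choose A hA h hh using key
      obtain ⟨H, hH⟩ := ultra_hom h (hr.mono fun i hi => (hh i hi).1)
      refine ⟨_, hU ι U A hA, H, ?_⟩
      have e : (H ∘ fun j => (um (y j) : Sys.ultra U B)) = fun j => um fun i => h i (y j i) :=
        funext fun j => hH (y j)
      rw [e, ultra_relMap, ← Ultrafilter.eventually_not]
      exact hr.mono fun i hi => (hh i hi).2

theorem mem_join {X Y : Quasivariety.{u} L} {A : Sys.{u} L} :
    A ∈ (X.join Y).cls ↔ A ∈ Sep (X.cls ∪ Y.cls) := by
  constructor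
  · intro h
    have hQ : IsQuasivariety (Sep (X.cls ∪ Y.cls)) := by
      apply Sep_isQuasivariety
      intro ι U A hA
      have hor : ∀ᶠ i in U, A i ∈ X.cls ∨ A i ∈ Y.cls := Filter.Eventually.of_forall hA
      rw [Ultrafilter.eventually_or] at hor
      rcases hor with h1 | h1
      · exact subset_Sep _ (Or.inl (X.isQ.ultra_eventually h1))
      · exact subset_Sep _ (Or.inr (Y.isQ.ultra_eventually h1))
    exact h ⟨_, hQ⟩ (fun B hB => subset_Sep _ (Or.inl hB)) (fun B hB => subset_Sep _ (Or.inr hB))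
  · intro h Z hX hY
    exact Z.isQ.sep_subset (Sep_mono (Set.union_subset hX hY) h)


/-! ### The target signature -/

/-- Function symbols of the finite signature of `K`: four unary and two binary ones. -/
inductive TFun : ℕ → Type
  | p : TFun 1
  | F : TFun 1
  | U : TFun 1
  | V : TFun 1
  | b : TFun 2
  | d : TFun 2

/-- The finite signature of `K`: four unary and two binary function symbols, no relations. -/
abbrev tau : FirstOrder.Language.{0, 0} := ⟨TFun, fun _ => Empty⟩

/-- unary operations -/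
def op1 {B : Sys.{u} tau} (f : TFun 1) (x : B) : B := funMap (L := tau) (M := B) f ![x]
/-- binary operations -/
def op2 {B : Sys.{u} tau} (f : TFun 2) (x y : B) : B := funMap (L := tau) (M := B) f ![x, y]

theorem hom_op1 {B C : Sys.{u} tau} (h : B →[tau] C) (f : TFun 1) (x : B) :
    h (op1 f x) = op1 f (h x) := by
  unfold op1
  rw [h.map_fun (f : tau.Functions 1)]
  congr 1
  funext i
  fin_cases i
  rfl

theorem hom_op2 {B C : Sys.{u} tau} (h : B →[tau] C) (f : TFun 2) (x y : B) :
    h (op2 f x y) = op2 f (h x) (h y) := by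
  unfold op2
  rw [h.map_fun (f : tau.Functions 2)]
  congr 1
  funext i
  fin_cases i <;> rfl

theorem hom_iter {B C : Sys.{u} tau} (h : B →[tau] C) (f : TFun 1) (n : ℕ) (x : B) :
    h ((op1 f)^[n] x) = (op1 f)^[n] (h x) := by
  induction n generalizing x with
  | zero => rfl
  | succ n ih => rw [Function.iterate_succ_apply, Function.iterate_succ_apply, ih, hom_op1]

/-- a map of `tau`-systems compatible with all operations is a homomorphism -/
theorem mkHom {B C : Sys.{u} tau} (H : B → C) (h1 : ∀ f x, H (op1 f x) = op1 f (H x))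
    (h2 : ∀ f x y, H (op2 f x y) = op2 f (H x) (H y)) : ∃ h : B →[tau] C, ∀ x, h x = H x := by
  refine ⟨{ toFun := H, map_fun' := ?_, map_rel' := fun r => Empty.elim r }, fun _ => rfl⟩
  intro n f x
  have e1 : ∀ (f : TFun 1) (x : Fin 1 → B), H (funMap (L := tau) f x) = funMap (L := tau) f (H ∘ x) := by
    intro f x
    have := h1 f (x 0)
    unfold op1 at this
    convert this using 2
    · congr 1; funext i; fin_cases i; rfl
    · funext i; fin_cases i; rfl
  have e2 : ∀ (f : TFun 2) (x : Fin 2 → B), H (funMap (L := tau) f x) = funMap (L := tau) f (H ∘ x) := by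
    intro f x
    have := h2 f (x 0) (x 1)
    unfold op2 at this
    convert this using 2
    · congr 1; funext i; fin_cases i <;> rfl
    · funext i; fin_cases i <;> rfl
  cases f
  · exact e1 _ x
  · exact e1 _ x
  · exact e1 _ x
  · exact e1 _ x
  · exact e2 _ x
  · exact e2 _ x

section coding

set_option linter.unusedSectionVars false

variable {k : ℕ} [NeZero k] (gf : ZMod k → Option (Σ n, L.Functions n))
  (gr : ZMod k → Option (Σ n, L.Relations n))

/-- the coded operations of `A` -/
def FA (A : Sys.{u} L) (x : ZMod k → A) (i : ZMod k) : A :=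
  match gf i with
  | some s => funMap s.2 fun j : Fin s.1 => x ((j : ℕ) : ZMod k)
  | none => x i

/-- the coded relations of `A` -/
def RA (A : Sys.{u} L) (x : ZMod k → A) (i : ZMod k) : Prop :=
  match gr i with
  | some s => RelMap s.2 fun j : Fin s.1 => x ((j : ℕ) : ZMod k)
  | none => True

/-- the carrier of the coded system -/
abbrev PhiC (k : ℕ) (A : Type u) : Type u := (ZMod k → A) × (ZMod k → (ZMod k → A) × ZMod k × Prop)

/-- the operations of the coded system -/
def phiFun (A : Sys.{u} L) : {n : ℕ} → TFun n → (Fin n → PhiC k A) → PhiC k A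
  | _, TFun.p, v => (fun i => (v 0).1 (i + 1), fun i => (v 0).2 (i + 1))
  | _, TFun.F, v => (FA gf A (v 0).1, (v 0).2)
  | _, TFun.U, v => ((v 0).1, fun i => ((v 0).1, i, True))
  | _, TFun.V, v => ((v 0).1, fun i => ((v 0).1, i, RA gr A (v 0).1 i))
  | _, TFun.b, v => (fun i => if i = 0 then (v 0).1 0 else (v 1).1 i,
      fun i => if i = 0 then (v 0).2 0 else (v 1).2 i)
  | _, TFun.d, v => ((v 0).1, (v 1).2)

/-- the coded system -/
def Phi (A : Sys.{u} L) : Sys.{u} tau where
  carrier := PhiC k A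
  str := { funMap := fun f v => phiFun gf gr A f v, RelMap := fun r => Empty.elim r }
  ne := ⟨(fun _ => Classical.arbitrary _, fun _ => (fun _ => Classical.arbitrary _, 0, True))⟩

variable {gf gr}

/-- first part -/
def fst' {A : Sys.{u} L} (x : Phi gf gr A) : ZMod k → A := (show PhiC k A from x).1
/-- second part -/
def snd' {A : Sys.{u} L} (x : Phi gf gr A) : ZMod k → (ZMod k → A) × ZMod k × Prop :=
  (show PhiC k A from x).2
/-- pairing -/
def mk' {A : Sys.{u} L} (x : ZMod k → A) (t : ZMod k → (ZMod k → A) × ZMod k × Prop) :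
    Phi gf gr A := (show PhiC k A from (x, t))

theorem phi_ext {A : Sys.{u} L} {x y : Phi gf gr A} (h1 : fst' x = fst' y) (h2 : snd' x = snd' y) :
    x = y := Prod.ext h1 h2

@[simp] theorem fst_mk {A : Sys.{u} L} (x t) : fst' (mk' x t : Phi gf gr A) = x := rfl
@[simp] theorem snd_mk {A : Sys.{u} L} (x t) : snd' (mk' x t : Phi gf gr A) = t := rfl

@[simp] theorem p1 {A : Sys.{u} L} (x : Phi gf gr A) (i) : fst' (op1 TFun.p x) i = fst' x (i + 1) := rfl
@[simp] theorem p2 {A : Sys.{u} L} (x : Phi gf gr A) (i) : snd' (op1 TFun.p x) i = snd' x (i + 1) := rfl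
@[simp] theorem F1 {A : Sys.{u} L} (x : Phi gf gr A) : fst' (op1 TFun.F x) = FA gf A (fst' x) := rfl
@[simp] theorem F2 {A : Sys.{u} L} (x : Phi gf gr A) : snd' (op1 TFun.F x) = snd' x := rfl
@[simp] theorem U1 {A : Sys.{u} L} (x : Phi gf gr A) : fst' (op1 TFun.U x) = fst' x := rfl
@[simp] theorem U2 {A : Sys.{u} L} (x : Phi gf gr A) (i) :
    snd' (op1 TFun.U x) i = (fst' x, i, True) := rfl
@[simp] theorem V1 {A : Sys.{u} L} (x : Phi gf gr A) : fst' (op1 TFun.V x) = fst' x := rfl
@[simp] theorem V2 {A : Sys.{u} L} (x : Phi gf gr A) (i) :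
    snd' (op1 TFun.V x) i = (fst' x, i, RA gr A (fst' x) i) := rfl
@[simp] theorem b1 {A : Sys.{u} L} (x y : Phi gf gr A) (i) :
    fst' (op2 TFun.b x y) i = if i = 0 then fst' x 0 else fst' y i := rfl
@[simp] theorem b2 {A : Sys.{u} L} (x y : Phi gf gr A) (i) :
    snd' (op2 TFun.b x y) i = if i = 0 then snd' x 0 else snd' y i := rfl
@[simp] theorem d1 {A : Sys.{u} L} (x y : Phi gf gr A) : fst' (op2 TFun.d x y) = fst' x := rfl
@[simp] theorem d2 {A : Sys.{u} L} (x y : Phi gf gr A) : snd' (op2 TFun.d x y) = snd' y := rfl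

@[simp] theorem pn1 {A : Sys.{u} L} (n : ℕ) (x : Phi gf gr A) (i) :
    fst' ((op1 TFun.p)^[n] x) i = fst' x (i + n) := by
  induction n generalizing x i with
  | zero => simp
  | succ n ih => rw [Function.iterate_succ_apply, ih, p1]; push_cast; rw [add_assoc, add_comm (n : ZMod k)]

@[simp] theorem pn2 {A : Sys.{u} L} (n : ℕ) (x : Phi gf gr A) (i) :
    snd' ((op1 TFun.p)^[n] x) i = snd' x (i + n) := by
  induction n generalizing x i with
  | zero => simp
  | succ n ih => rw [Function.iterate_succ_apply, ih, p2]; push_cast; rw [add_assoc, add_comm (n : ZMod k)]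

/-- `B` is a homomorphic test object: the zeroth first coordinates agree under all homomorphisms -/
def eA (gf : ZMod k → Option (Σ n, L.Functions n)) (gr : ZMod k → Option (Σ n, L.Relations n))
    {B : Sys.{u} tau} (x y : B) : Prop :=
  ∀ (A : Sys.{u} L) (h : B →[tau] Phi gf gr A), fst' (h x) 0 = fst' (h y) 0

/-- the zeroth second coordinates agree under all homomorphisms -/
def eT (gf : ZMod k → Option (Σ n, L.Functions n)) (gr : ZMod k → Option (Σ n, L.Relations n))
    {B : Sys.{u} tau} (x y : B) : Prop :=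
  ∀ (A : Sys.{u} L) (h : B →[tau] Phi gf gr A), snd' (h x) 0 = snd' (h y) 0


/-- the equivalence relation `eA` -/
def setA (gf : ZMod k → Option (Σ n, L.Functions n)) (gr : ZMod k → Option (Σ n, L.Relations n))
    (B : Sys.{u} tau) : Setoid B where
  r := eA gf gr
  iseqv := ⟨fun _ _ _ => rfl, fun h A g => (h A g).symm, fun h h' A g => (h A g).trans (h' A g)⟩

/-- position `i` of an element, moved to position `0` -/
def sh {B : Sys.{u} tau} (i : ZMod k) (x : B) : B := (op1 TFun.p)^[i.val] x

theorem sh1 {B : Sys.{u} tau} (i : ZMod k) (x : B) (A : Sys.{u} L) (h : B →[tau] Phi gf gr A) :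
    fst' (h (sh i x)) 0 = fst' (h x) i := by
  unfold sh
  rw [hom_iter, pn1, zero_add, ZMod.natCast_zmod_val]

theorem sh2 {B : Sys.{u} tau} (i : ZMod k) (x : B) (A : Sys.{u} L) (h : B →[tau] Phi gf gr A) :
    snd' (h (sh i x)) 0 = snd' (h x) i := by
  unfold sh
  rw [hom_iter, pn2, zero_add, ZMod.natCast_zmod_val]

/-- every tuple of length at most `k` of elements is realised by one element -/
theorem exists_tup (gf : ZMod k → Option (Σ n, L.Functions n))
    (gr : ZMod k → Option (Σ n, L.Relations n)) {B : Sys.{u} tau} (x : ℕ → B) :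
    ∀ n ≤ k, ∃ m : B, ∀ (A : Sys.{u} L) (h : B →[tau] Phi gf gr A), ∀ j < n,
      fst' (h m) ((j : ℕ) : ZMod k) = fst' (h (x j)) 0 := by
  intro n
  induction n with
  | zero => exact fun _ => ⟨Classical.arbitrary _, fun _ _ j hj => absurd hj (Nat.not_lt_zero j)⟩
  | succ n ih =>
    intro hn
    obtain ⟨m, hm⟩ := ih (by omega)
    refine ⟨(op1 TFun.p)^[k - n] (op2 TFun.b (x n) ((op1 TFun.p)^[n] m)), ?_⟩
    intro A h j hj
    have hk : ((k - n : ℕ) : ZMod k) + ((n : ℕ) : ZMod k) = 0 := by
      rw [← Nat.cast_add, Nat.sub_add_cancel (by omega), ZMod.natCast_self]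
    rw [hom_iter, pn1, hom_op2, b1]
    by_cases hjn : j = n
    · subst hjn
      rw [if_pos (by rw [add_comm]; exact hk)]
    · have hlt : j < n := by omega
      have hne : ((j : ℕ) : ZMod k) + ((k - n : ℕ) : ZMod k) ≠ 0 := by
        intro h0
        have e : ((j : ℕ) : ZMod k) = ((n : ℕ) : ZMod k) := by
          have := congrArg (· + ((n : ℕ) : ZMod k)) h0
          simp only [add_assoc, hk, add_zero, zero_add] at this
          exact this
        rw [ZMod.natCast_eq_natCast_iff'] at e
        rw [Nat.mod_eq_of_lt (by omega), Nat.mod_eq_of_lt (by omega)] at e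
        exact hjn e
      rw [if_neg hne, hom_iter, pn1, add_assoc, hk, add_zero]
      exact hm A h j hlt

/-- a coding of the signature `L` -/
structure Coding (gf : ZMod k → Option (Σ n, L.Functions n))
    (gr : ZMod k → Option (Σ n, L.Relations n)) : Prop where
  hf : ∀ s, ∃ i, gf i = some s
  hr : ∀ s, ∃ i, gr i = some s
  af : ∀ s : Σ n, L.Functions n, s.1 ≤ k
  ar : ∀ s : Σ n, L.Relations n, s.1 ≤ k

variable (hc : Coding gf gr)

theorem exists_op (hc : Coding gf gr) {B : Sys.{u} tau} {n : ℕ} (f : L.Functions n)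
    (c : Fin n → Quotient (setA gf gr B)) :
    ∃ z : B, ∀ (A : Sys.{u} L) (h : B →[tau] Phi gf gr A),
      fst' (h z) 0 = funMap f fun j => fst' (h (c j).out) 0 := by
  obtain ⟨i, hi⟩ := hc.hf ⟨n, f⟩
  obtain ⟨m, hm⟩ := exists_tup gf gr
    (fun j => if hj : j < n then (c ⟨j, hj⟩).out else Classical.arbitrary B) n (hc.af ⟨n, f⟩)
  refine ⟨sh i (op1 TFun.F m), fun A h => ?_⟩
  rw [sh1, hom_op1, F1]
  unfold FA
  rw [hi]
  change (funMap f fun j : Fin n => fst' (h m) ((j : ℕ) : ZMod k)) = _
  congr 1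
  funext j
  rw [hm A h j j.2, dif_pos j.2]

/-- The decoded system: the quotient of `B` on which all homomorphisms to coded systems induce
homomorphisms. -/
def Psi (hc : Coding gf gr) (B : Sys.{u} tau) : Sys.{u} L where
  carrier := Quotient (setA gf gr B)
  str :=
    { funMap := fun f c => Quotient.mk _ (exists_op hc f c).choose
      RelMap := fun r c => ∀ (A : Sys.{u} L) (h : B →[tau] Phi gf gr A),
        RelMap r fun j => fst' (h (c j).out) 0 }
  ne := ⟨Quotient.mk _ (Classical.arbitrary _)⟩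

/-- the class of an element in the decoded system -/
def cl (hc : Coding gf gr) {B : Sys.{u} tau} (x : B) : Psi hc B :=
  (Quotient.mk (setA gf gr B) x : Quotient (setA gf gr B))

theorem cl_surj (hc : Coding gf gr) {B : Sys.{u} tau} (c : Psi hc B) : ∃ x, cl hc x = c :=
  Quotient.exists_rep c

theorem cl_eq (hc : Coding gf gr) {B : Sys.{u} tau} {x y : B} :
    cl hc x = cl hc y ↔ ∀ (A : Sys.{u} L) (h : B →[tau] Phi gf gr A),
      fst' (h x) 0 = fst' (h y) 0 := Quotient.eq (r := setA gf gr B)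

/-- the evaluation map -/
def ev (hc : Coding gf gr) {B : Sys.{u} tau} {A : Sys.{u} L} (h : B →[tau] Phi gf gr A) :
    Psi hc B → A :=
  fun c => Quotient.lift (fun x => fst' (h x) 0) (fun x y e => (show eA gf gr x y from e) A h)
    (show Quotient (setA gf gr B) from c)

@[simp] theorem ev_cl (hc : Coding gf gr) {B : Sys.{u} tau} {A : Sys.{u} L}
    (h : B →[tau] Phi gf gr A) (x : B) : ev hc h (cl hc x) = fst' (h x) 0 := rfl

theorem ev_out (hc : Coding gf gr) {B : Sys.{u} tau} {A : Sys.{u} L}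
    (h : B →[tau] Phi gf gr A) (c : Psi hc B) :
    fst' (h (show Quotient (setA gf gr B) from c).out) 0 = ev hc h c := by
  have : cl hc (show Quotient (setA gf gr B) from c).out = c := Quotient.out_eq _
  conv_rhs => rw [← this]
  rfl

theorem ev_fun (hc : Coding gf gr) {B : Sys.{u} tau} {A : Sys.{u} L}
    (h : B →[tau] Phi gf gr A) {n : ℕ} (f : L.Functions n) (c : Fin n → Psi hc B) :
    ev hc h (funMap f c) = funMap f fun j => ev hc h (c j) := by
  have := (exists_op hc f (fun j => (show Quotient (setA gf gr B) from c j))).choose_spec A h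
  refine this.trans ?_
  congr 1
  funext j
  exact ev_out hc h (c j)

theorem ev_rel (hc : Coding gf gr) {B : Sys.{u} tau} {n : ℕ} (r : L.Relations n)
    (c : Fin n → Psi hc B) :
    RelMap r c ↔ ∀ (A : Sys.{u} L) (h : B →[tau] Phi gf gr A), RelMap r fun j => ev hc h (c j) := by
  have e : RelMap r c ↔ ∀ (A : Sys.{u} L) (h : B →[tau] Phi gf gr A),
        RelMap r fun j => fst' (h (show Quotient (setA gf gr B) from c j).out) 0 := Iff.rfl
  rw [e]
  simp only [ev_out]

/-- the evaluation homomorphism -/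
def evH (hc : Coding gf gr) {B : Sys.{u} tau} {A : Sys.{u} L} (h : B →[tau] Phi gf gr A) :
    Psi hc B →[L] A where
  toFun := ev hc h
  map_fun' := fun f c => ev_fun hc h f c
  map_rel' := fun r c hr => (ev_rel hc r c).1 hr A h

theorem ev_ext (hc : Coding gf gr) {B : Sys.{u} tau} {c c' : Psi hc B}
    (H : ∀ (A : Sys.{u} L) (h : B →[tau] Phi gf gr A), ev hc h c = ev hc h c') : c = c' := by
  obtain ⟨x, rfl⟩ := cl_surj hc c
  obtain ⟨y, rfl⟩ := cl_surj hc c'
  exact (cl_eq hc).2 H

/-- Step 1: decoding a system separated by codes of members of `Z`. -/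
theorem Psi_mem (hc : Coding gf gr) {Z : Set (Sys.{u} L)} {B : Sys.{u} tau}
    (hB : B ∈ Sep ((fun A => Phi gf gr A) '' Z)) : Psi hc B ∈ Sep Z := by
  constructor
  · intro c c' hne
    obtain ⟨x, rfl⟩ := cl_surj hc c
    obtain ⟨y, rfl⟩ := cl_surj hc c'
    rw [Ne, cl_eq] at hne
    push Not at hne
    obtain ⟨A, h, hA⟩ := hne
    have hq : op2 TFun.d (op2 TFun.b x y) y ≠ y := by
      intro e
      apply hA
      have := congrArg (fun z => fst' (h z) 0) e
      simpa [hom_op2] using this
    obtain ⟨_, ⟨A', hA', rfl⟩, h', hh'⟩ := hB.1 _ _ hq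
    refine ⟨A', hA', evH hc h', fun e => hh' ?_⟩
    have e' : fst' (h' x) 0 = fst' (h' y) 0 := e
    rw [hom_op2, hom_op2]
    apply phi_ext
    · funext i
      rw [d1, b1]
      split_ifs with hi
      · rw [e', hi]
      · rfl
    · rw [d2]
  · intro n r c hr
    rw [ev_rel] at hr
    push Not at hr
    obtain ⟨A, h, hA⟩ := hr
    obtain ⟨i, hi⟩ := hc.hr ⟨n, r⟩
    obtain ⟨m, hm⟩ := exists_tup gf gr
      (fun j => if hj : j < n then (show Quotient (setA gf gr B) from c ⟨j, hj⟩).out
        else Classical.arbitrary B) n (hc.ar ⟨n, r⟩)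
    have hm' : ∀ (A : Sys.{u} L) (h : B →[tau] Phi gf gr A),
        (RA gr A (fst' (h m)) i ↔ RelMap r fun j => ev hc h (c j)) := by
      intro A h
      unfold RA
      rw [hi]
      have : (fun j : Fin n => fst' (h m) ((j : ℕ) : ZMod k)) = fun j => ev hc h (c j) := by
        funext j
        rw [hm A h j j.2, dif_pos j.2]
        exact ev_out hc h (c j)
      change (RelMap r fun j : Fin n => fst' (h m) ((j : ℕ) : ZMod k)) ↔ _
      rw [this]
    have hz : op2 TFun.b (sh i (op1 TFun.U m)) m ≠ op2 TFun.b (sh i (op1 TFun.V m)) m := by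
      intro e
      apply hA
      have := congrArg (fun z => snd' (h z) 0) e
      simp only [hom_op2, b2, if_true, sh2, hom_op1, U2, V2, Prod.mk.injEq, true_and] at this
      rw [← hm' A h, ← this]
      trivial
    obtain ⟨_, ⟨A', hA', rfl⟩, h', hh'⟩ := hB.1 _ _ hz
    refine ⟨A', hA', evH hc h', fun e => hh' ?_⟩
    have e' : RA gr A' (fst' (h' m)) i := (hm' A' h').2 e
    rw [hom_op2, hom_op2]
    apply phi_ext
    · funext l
      rw [b1, b1, sh1, sh1, hom_op1, hom_op1, U1, V1]
    · funext l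
      rw [b2, b2, sh2, sh2, hom_op1, hom_op1, U2, V2]
      simp [e']


/-- the tuple of positions of an element, in the decoded system -/
def pos (hc : Coding gf gr) {B : Sys.{u} tau} (x : B) : ZMod k → Psi hc B := fun i => cl hc (sh i x)

theorem ev_pos (hc : Coding gf gr) {B : Sys.{u} tau} {A : Sys.{u} L}
    (h : B →[tau] Phi gf gr A) (x : B) : (fun i => ev hc h (pos hc x i)) = fst' (h x) := by
  funext i
  exact sh1 i x A h

theorem pos_eq (hc : Coding gf gr) {B : Sys.{u} tau} {x y : B}
    (H : ∀ (A : Sys.{u} L) (h : B →[tau] Phi gf gr A), fst' (h x) = fst' (h y)) :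
    pos hc x = pos hc y := by
  funext i
  apply ev_ext
  intro A h
  have := congrFun (H A h) i
  rw [← ev_pos hc, ← ev_pos hc] at this
  exact this

theorem FA_hom {A C : Sys.{u} L} (g : A →[L] C) (x : ZMod k → A) (i : ZMod k) :
    g (FA gf A x i) = FA gf C (fun l => g (x l)) i := by
  unfold FA
  cases gf i with
  | none => rfl
  | some s => exact g.map_fun s.2 _

theorem RA_hom {A C : Sys.{u} L} (g : A →[L] C) (x : ZMod k → A) (i : ZMod k)
    (h : RA gr A x i) : RA gr C (fun l => g (x l)) i := by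
  unfold RA at *
  cases hi : gr i with
  | none => trivial
  | some s => rw [hi] at h; exact g.map_rel s.2 _ h

theorem RA_Psi (hc : Coding gf gr) {B : Sys.{u} tau} (x : ZMod k → Psi hc B) (i : ZMod k) :
    RA gr (Psi hc B) x i ↔ ∀ (A : Sys.{u} L) (h : B →[tau] Phi gf gr A),
      RA gr A (fun l => ev hc h (x l)) i := by
  unfold RA
  cases hi : gr i with
  | none => exact ⟨fun _ _ _ => trivial, fun _ => trivial⟩
  | some s => exact ev_rel hc s.2 _

/-- the second part of the coded system -/
abbrev TC (k : ℕ) (A : Type u) : Type u := (ZMod k → A) × ZMod k × Prop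

/-- Homomorphisms into coded systems. -/
theorem lemmaH (hc : Coding gf gr) {B : Sys.{u} tau} {C : Sys.{u} L} (φ : Psi hc B →[L] C)
    (ρ : B → TC k C) (r1 : ∀ y y', eT gf gr y y' → ρ y = ρ y')
    (r2 : ∀ m j, ρ (sh j (op1 TFun.U m)) = (fun l => φ (pos hc m l), j, True))
    (r3 : ∀ m j, ρ (sh j (op1 TFun.V m)) =
      (fun l => φ (pos hc m l), j, RA gr C (fun l => φ (pos hc m l)) j)) :
    ∃ H : B →[tau] Phi gf gr C, ∀ x, H x = mk' (fun l => φ (pos hc x l)) fun l => ρ (sh l x) := by
  have cle : ∀ {x y : B}, (∀ (A : Sys.{u} L) (h : B →[tau] Phi gf gr A),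
      fst' (h x) 0 = fst' (h y) 0) → cl hc x = cl hc y := fun h => (cl_eq hc).2 h
  apply mkHom
  · intro f x
    cases f
    · -- p
      apply phi_ext
      · funext i
        rw [fst_mk, p1, fst_mk]
        congr 1
        apply cle
        intro A h
        rw [sh1, sh1, hom_op1, p1]
      · funext i
        rw [snd_mk, p2, snd_mk]
        apply r1
        intro A h
        rw [sh2, sh2, hom_op1, p2]
    · -- F
      apply phi_ext
      · funext i
        rw [fst_mk, F1, fst_mk, ← FA_hom]
        congr 1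
        apply ev_ext
        intro A h
        change ev hc h (cl hc (sh i _)) = evH hc h _
        rw [FA_hom, ev_cl, sh1, hom_op1, F1]
        change _ = FA gf A (fun l => ev hc h (pos hc x l)) i
        rw [ev_pos]
      · rw [F2]
        funext i
        rw [snd_mk, snd_mk]
        apply r1
        intro A h
        rw [sh2, sh2, hom_op1, F2]
    · -- U
      apply phi_ext
      · funext i
        rw [fst_mk, U1, fst_mk]
        congr 1
        apply cle
        intro A h
        rw [sh1, sh1, hom_op1, U1]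
      · funext i
        rw [snd_mk, U2, fst_mk]
        exact r2 x i
    · -- V
      apply phi_ext
      · funext i
        rw [fst_mk, V1, fst_mk]
        congr 1
        apply cle
        intro A h
        rw [sh1, sh1, hom_op1, V1]
      · funext i
        rw [snd_mk, V2, fst_mk]
        exact r3 x i
  · intro f x y
    cases f
    · -- b
      apply phi_ext
      · funext i
        rw [fst_mk, b1, fst_mk, fst_mk]
        split_ifs with hi
        · subst hi
          congr 1
          apply cle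
          intro A h
          rw [sh1, sh1, hom_op2, b1, if_pos rfl]
        · congr 1
          apply cle
          intro A h
          rw [sh1, sh1, hom_op2, b1, if_neg hi]
      · funext i
        rw [snd_mk, b2, snd_mk, snd_mk]
        split_ifs with hi
        · subst hi
          apply r1
          intro A h
          rw [sh2, sh2, hom_op2, b2, if_pos rfl]
        · apply r1
          intro A h
          rw [sh2, sh2, hom_op2, b2, if_neg hi]
    · -- d
      apply phi_ext
      · funext i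
        rw [fst_mk, d1, fst_mk]
        congr 1
        apply cle
        intro A h
        rw [sh1, sh1, hom_op2, d1]
      · funext i
        rw [snd_mk, d2, snd_mk]
        apply r1
        intro A h
        rw [sh2, sh2, hom_op2, d2]

/-- Existence of the map `ρ`. -/
theorem lemmaR (hc : Coding gf gr) {B : Sys.{u} tau} {C : Sys.{u} L} (φ : Psi hc B →[L] C)
    {A0 : Sys.{u} L} (h0 : B →[tau] Phi gf gr A0)
    (ext : B → TC k C) (hext : ∀ y y', eT gf gr y y' → ext y = ext y') :
    ∃ ρ : B → TC k C, (∀ y y', eT gf gr y y' → ρ y = ρ y') ∧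
      (∀ m j, ρ (sh j (op1 TFun.U m)) = (fun l => φ (pos hc m l), j, True)) ∧
      (∀ m j, ρ (sh j (op1 TFun.V m)) =
        (fun l => φ (pos hc m l), j, RA gr C (fun l => φ (pos hc m l)) j)) ∧
      (∀ y, (∀ (m : B) (j : ZMod k), ¬ eT gf gr y (sh j (op1 TFun.U m))) →
        (∀ (m : B) (j : ZMod k), ¬ eT gf gr y (sh j (op1 TFun.V m))) → ρ y = ext y) := by
  have sym : ∀ {y y' : B}, eT gf gr y y' → eT gf gr y' y := fun h A g => (h A g).symm
  have tr : ∀ {y y' y'' : B}, eT gf gr y y' → eT gf gr y' y'' → eT gf gr y y'' :=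
    fun h h' A g => (h A g).trans (h' A g)
  -- uniqueness of representations
  have uUU : ∀ (m : B) (j : ZMod k) (m' : B) (j' : ZMod k), eT gf gr (sh j (op1 TFun.U m) : B) (sh j' (op1 TFun.U m')) →
      pos hc m = pos hc m' ∧ j = j' := by
    intro m j m' j' h
    refine ⟨pos_eq hc fun A g => ?_, ?_⟩
    · have := h A g
      rw [sh2, sh2, hom_op1, hom_op1, U2, U2] at this
      exact (Prod.mk.inj this).1
    · have := h A0 h0
      rw [sh2, sh2, hom_op1, hom_op1, U2, U2] at this
      exact congrArg (fun z => z.2.1) this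
  have uVV : ∀ (m : B) (j : ZMod k) (m' : B) (j' : ZMod k), eT gf gr (sh j (op1 TFun.V m) : B) (sh j' (op1 TFun.V m')) →
      pos hc m = pos hc m' ∧ j = j' := by
    intro m j m' j' h
    refine ⟨pos_eq hc fun A g => ?_, ?_⟩
    · have := h A g
      rw [sh2, sh2, hom_op1, hom_op1, V2, V2] at this
      exact (Prod.mk.inj this).1
    · have := h A0 h0
      rw [sh2, sh2, hom_op1, hom_op1, V2, V2] at this
      exact congrArg (fun z => z.2.1) this
  have uUV : ∀ (m : B) (j : ZMod k) (m' : B) (j' : ZMod k), eT gf gr (sh j (op1 TFun.U m) : B) (sh j' (op1 TFun.V m')) →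
      pos hc m = pos hc m' ∧ j = j' ∧ RA gr C (fun l => φ (pos hc m' l)) j' := by
    intro m j m' j' h
    refine ⟨pos_eq hc fun A g => ?_, ?_, ?_⟩
    · have := h A g
      rw [sh2, sh2, hom_op1, hom_op1, U2, V2] at this
      exact (Prod.mk.inj this).1
    · have := h A0 h0
      rw [sh2, sh2, hom_op1, hom_op1, U2, V2] at this
      exact congrArg (fun z => z.2.1) this
    · apply RA_hom
      rw [RA_Psi]
      intro A g
      have := h A g
      rw [sh2, sh2, hom_op1, hom_op1, U2, V2] at this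
      have h3 : True = RA gr A (fst' (g m')) j' := congrArg (fun z => z.2.2) this
      rw [ev_pos, ← h3]
      trivial
  have key : ∀ y : B, ∃ v : TC k C,
      (∀ m j, eT gf gr y (sh j (op1 TFun.U m)) → v = (fun l => φ (pos hc m l), j, True)) ∧
      (∀ m j, eT gf gr y (sh j (op1 TFun.V m)) →
        v = (fun l => φ (pos hc m l), j, RA gr C (fun l => φ (pos hc m l)) j)) ∧
      ((∀ (m : B) (j : ZMod k), ¬ eT gf gr y (sh j (op1 TFun.U m))) →
        (∀ (m : B) (j : ZMod k), ¬ eT gf gr y (sh j (op1 TFun.V m))) → v = ext y) := by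
    intro y
    by_cases hU : ∃ (m : B) (j : ZMod k), eT gf gr y (sh j (op1 TFun.U m))
    · obtain ⟨m, j, hmj⟩ := hU
      refine ⟨(fun l => φ (pos hc m l), j, True), ?_, ?_, fun h => absurd hmj (h m j)⟩
      · intro m' j' h'
        obtain ⟨e1, e2⟩ := uUU _ _ _ _ (tr (sym hmj) h')
        rw [e1, e2]
      · intro m' j' h'
        obtain ⟨e1, e2, e3⟩ := uUV _ _ _ _ (tr (sym hmj) h')
        rw [e1, e2]
        simp [e3]
    · by_cases hV : ∃ (m : B) (j : ZMod k), eT gf gr y (sh j (op1 TFun.V m))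
      · obtain ⟨m, j, hmj⟩ := hV
        refine ⟨(fun l => φ (pos hc m l), j, RA gr C (fun l => φ (pos hc m l)) j), ?_, ?_,
          fun _ h => absurd hmj (h m j)⟩
        · intro m' j' h'
          exact absurd ⟨m', j', h'⟩ hU
        · intro m' j' h'
          obtain ⟨e1, e2⟩ := uVV _ _ _ _ (tr (sym hmj) h')
          rw [e1, e2]
      · exact ⟨ext y, fun m j h => absurd ⟨m, j, h⟩ hU, fun m j h => absurd ⟨m, j, h⟩ hV,
          fun _ _ => rfl⟩
  choose ρ k1 k2 k3 using key
  refine ⟨ρ, ?_, fun m j => k1 _ m j fun _ _ => rfl, fun m j => k2 _ m j fun _ _ => rfl, k3⟩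
  intro y y' hyy
  by_cases hU : ∃ (m : B) (j : ZMod k), eT gf gr y (sh j (op1 TFun.U m))
  · obtain ⟨m, j, hmj⟩ := hU
    rw [k1 _ _ _ hmj, k1 _ _ _ (tr (sym hyy) hmj)]
  · by_cases hV : ∃ (m : B) (j : ZMod k), eT gf gr y (sh j (op1 TFun.V m))
    · obtain ⟨m, j, hmj⟩ := hV
      rw [k2 _ _ _ hmj, k2 _ _ _ (tr (sym hyy) hmj)]
    · push Not at hU hV
      rw [k3 _ hU hV, k3 y' (fun m j h => hU m j (tr hyy h)) (fun m j h => hV m j (tr hyy h))]
      exact hext _ _ hyy


/-- the homomorphism to the trivial system -/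
def toTriv (D : Sys.{u} L) : D →[L] triv L where
  toFun := fun _ i => i.elim
  map_fun' := fun _ _ => funext fun i => i.elim
  map_rel' := fun _ _ _ i => i.elim

theorem RA_triv (x : ZMod k → triv.{u} L) (i : ZMod k) : RA gr (triv L) x i := by
  unfold RA
  cases gr i with
  | none => trivial
  | some s => exact fun i => i.elim

theorem sepT (hc : Coding gf gr) {Z : Set (Sys.{u} L)} (hZ : triv L ∈ Z) {B : Sys.{u} tau}
    (hP : Psi hc B ∈ Sep Z) {A0 : Sys.{u} L} (h0 : B →[tau] Phi gf gr A0) (y y' : B)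
    (hyy : ¬ eT gf gr y y') :
    ∃ C ∈ Z, ∃ ρ : B → TC k C, ∃ H : B →[tau] Phi gf gr C,
      (∀ x l, snd' (H x) l = ρ (sh l x)) ∧ ρ y ≠ ρ y' := by
  have build : ∀ (C : Sys.{u} L) (φ : Psi hc B →[L] C) (ρ : B → TC k C)
      (r1 : ∀ y y', eT gf gr y y' → ρ y = ρ y')
      (r2 : ∀ m j, ρ (sh j (op1 TFun.U m)) = (fun l => φ (pos hc m l), j, True))
      (r3 : ∀ m j, ρ (sh j (op1 TFun.V m)) =
        (fun l => φ (pos hc m l), j, RA gr C (fun l => φ (pos hc m l)) j)),
      ∃ H : B →[tau] Phi gf gr C, ∀ x l, snd' (H x) l = ρ (sh l x) := by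
    intro C φ ρ r1 r2 r3
    obtain ⟨H, hH⟩ := lemmaH hc φ ρ r1 r2 r3
    exact ⟨H, fun x l => by rw [hH]; rfl⟩
  -- the case where `y` is not in the image of the base operations
  have extra : ∀ y y' : B, ¬ eT gf gr y y' →
      (∀ (m : B) (j : ZMod k), ¬ eT gf gr y (sh j (op1 TFun.U m))) →
      (∀ (m : B) (j : ZMod k), ¬ eT gf gr y (sh j (op1 TFun.V m))) →
      ∃ C ∈ Z, ∃ ρ : B → TC k C, ∃ H : B →[tau] Phi gf gr C,
        (∀ x l, snd' (H x) l = ρ (sh l x)) ∧ ρ y ≠ ρ y' := by
    intro y y' hyy hU hV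
    classical
    let v0 : TC k (triv.{u} L) := (fun _ => Classical.arbitrary _, 0, False)
    let v1 : TC k (triv.{u} L) := (fun _ => Classical.arbitrary _, 0, True)
    obtain ⟨ρ, r1, r2, r3, r4⟩ := lemmaR hc (toTriv (Psi hc B)) h0
      (fun z => if eT gf gr z y then v0 else v1) (by
        intro z z' hz
        have : eT gf gr z y ↔ eT gf gr z' y :=
          ⟨fun h A g => (hz A g).symm.trans (h A g), fun h A g => (hz A g).trans (h A g)⟩
        simp only [this])
    obtain ⟨H, hH⟩ := build _ _ ρ r1 r2 r3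
    refine ⟨_, hZ, ρ, H, hH, ?_⟩
    have hρy : ρ y = v0 := by
      rw [r4 y hU hV]
      exact if_pos fun _ _ => rfl
    rw [hρy]
    intro e
    have e3 : False = (ρ y').2.2 := congrArg (fun z => z.2.2) e
    by_cases hU' : ∃ (m : B) (j : ZMod k), eT gf gr y' (sh j (op1 TFun.U m))
    · obtain ⟨m, j, hmj⟩ := hU'
      rw [r1 _ _ hmj, r2] at e3
      exact e3.symm ▸ trivial
    · by_cases hV' : ∃ (m : B) (j : ZMod k), eT gf gr y' (sh j (op1 TFun.V m))
      · obtain ⟨m, j, hmj⟩ := hV'
        rw [r1 _ _ hmj, r3] at e3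
        have e4 : False = RA gr (triv L) (fun l => toTriv (Psi hc B) (pos hc m l)) j := e3
        exact cast e4.symm (RA_triv _ _)
      · push Not at hU' hV'
        rw [r4 y' hU' hV', if_neg (fun h => hyy fun A g => (h A g).symm)] at e3
        exact e3.symm ▸ trivial
  by_cases hy : ∃ (m : B) (j : ZMod k), eT gf gr y (sh j (op1 TFun.U m)) ∨
      eT gf gr y (sh j (op1 TFun.V m))
  swap
  · push Not at hy
    exact extra y y' hyy (fun m j => (hy m j).1) (fun m j => (hy m j).2)
  by_cases hy' : ∃ (m : B) (j : ZMod k), eT gf gr y' (sh j (op1 TFun.U m)) ∨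
      eT gf gr y' (sh j (op1 TFun.V m))
  swap
  · push Not at hy'
    obtain ⟨C, hC, ρ, H, h1, h2⟩ := extra y' y (fun h => hyy fun A g => (h A g).symm)
      (fun m j => (hy' m j).1) (fun m j => (hy' m j).2)
    exact ⟨C, hC, ρ, H, h1, h2.symm⟩
  obtain ⟨m, j, hmj⟩ := hy
  obtain ⟨m', j', hmj'⟩ := hy'
  -- first two components of the value of `ρ`
  have val : ∀ (C : Sys.{u} L) (φ : Psi hc B →[L] C) (ρ : B → TC k C)
      (r1 : ∀ y y', eT gf gr y y' → ρ y = ρ y')
      (r2 : ∀ m j, ρ (sh j (op1 TFun.U m)) = (fun l => φ (pos hc m l), j, True))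
      (r3 : ∀ m j, ρ (sh j (op1 TFun.V m)) =
        (fun l => φ (pos hc m l), j, RA gr C (fun l => φ (pos hc m l)) j))
      (y m : B) (j : ZMod k), (eT gf gr y (sh j (op1 TFun.U m)) ∨
      eT gf gr y (sh j (op1 TFun.V m))) → (ρ y).1 = (fun l => φ (pos hc m l)) ∧ (ρ y).2.1 = j := by
    intro C φ ρ r1 r2 r3 y m j h
    rcases h with h | h
    · rw [r1 _ _ h, r2]; exact ⟨rfl, rfl⟩
    · rw [r1 _ _ h, r3]; exact ⟨rfl, rfl⟩
  have dflt : ∀ (C : Sys.{u} L) (φ : Psi hc B →[L] C), ∃ ρ : B → TC k C,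
      (∀ y y', eT gf gr y y' → ρ y = ρ y') ∧
      (∀ m j, ρ (sh j (op1 TFun.U m)) = (fun l => φ (pos hc m l), j, True)) ∧
      (∀ m j, ρ (sh j (op1 TFun.V m)) =
        (fun l => φ (pos hc m l), j, RA gr C (fun l => φ (pos hc m l)) j)) := by
    intro C φ
    obtain ⟨ρ, r1, r2, r3, -⟩ := lemmaR hc φ h0
      (fun _ => (fun _ => Classical.arbitrary _, 0, False)) (fun _ _ _ => rfl)
    exact ⟨ρ, r1, r2, r3⟩
  by_cases hj : j = j'
  swap
  · obtain ⟨ρ, r1, r2, r3⟩ := dflt _ (toTriv (Psi hc B))
    obtain ⟨H, hH⟩ := build _ _ ρ r1 r2 r3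
    refine ⟨_, hZ, ρ, H, hH, fun e => hj ?_⟩
    rw [← (val _ _ ρ r1 r2 r3 y m j hmj).2, ← (val _ _ ρ r1 r2 r3 y' m' j' hmj').2, e]
  subst hj
  by_cases hm : pos hc m = pos hc m'
  swap
  · obtain ⟨l, hl⟩ := Function.ne_iff.1 hm
    obtain ⟨C, hC, φ, hφ⟩ := hP.1 _ _ hl
    obtain ⟨ρ, r1, r2, r3⟩ := dflt _ φ
    obtain ⟨H, hH⟩ := build _ _ ρ r1 r2 r3
    refine ⟨_, hC, ρ, H, hH, fun e => hφ ?_⟩
    have e1 := (val _ _ ρ r1 r2 r3 y m j hmj).1
    have e2 := (val _ _ ρ r1 r2 r3 y' m' j hmj').1
    rw [e] at e1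
    exact congrFun (e1.symm.trans e2) l
  -- the relation case
  have hfst : ∀ (A : Sys.{u} L) (g : B →[tau] Phi gf gr A), fst' (g m) = fst' (g m') := by
    intro A g
    rw [← ev_pos hc, ← ev_pos hc, hm]
  have hR : ¬ RA gr (Psi hc B) (pos hc m) j := by
    intro hR
    rw [RA_Psi] at hR
    apply hyy
    intro A g
    have hg := hR A g
    rw [ev_pos] at hg
    have key : ∀ y m : B, RA gr A (fst' (g m)) j → (eT gf gr y (sh j (op1 TFun.U m)) ∨
      eT gf gr y (sh j (op1 TFun.V m))) → snd' (g y) 0 = (fst' (g m), j, True) := by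
      intro y m hg h
      rcases h with h | h
      · rw [h A g, sh2, hom_op1, U2]
      · rw [h A g, sh2, hom_op1, V2]
        simp [hg]
    rw [key y m hg hmj, key y' m' (hfst A g ▸ hg) hmj', hfst A g]
  have hR' : ∃ C ∈ Z, ∃ φ : Psi hc B →[L] C, ¬ RA gr C (fun l => φ (pos hc m l)) j := by
    unfold RA at hR ⊢
    cases hs : gr j with
    | none => rw [hs] at hR; exact absurd trivial hR
    | some s =>
      rw [hs] at hR
      exact hP.2 _ s.2 _ hR
  obtain ⟨C, hC, φ, hφ⟩ := hR'
  obtain ⟨ρ, r1, r2, r3⟩ := dflt _ φ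
  obtain ⟨H, hH⟩ := build _ _ ρ r1 r2 r3
  refine ⟨_, hC, ρ, H, hH, ?_⟩
  have hφ' : ¬ RA gr C (fun l => φ (pos hc m' l)) j := by rw [← hm]; exact hφ
  rcases hmj with h | h <;> rcases hmj' with h' | h'
  · exact absurd (fun A g => by
      rw [h A g, h' A g, sh2, sh2, hom_op1, hom_op1, U2, U2, hfst A g]) hyy
  · rw [r1 _ _ h, r1 _ _ h', r2, r3]
    intro e
    have e3 : True = RA gr C (fun l => φ (pos hc m' l)) j := congrArg (fun z => z.2.2) e
    exact hφ' (e3 ▸ trivial)
  · rw [r1 _ _ h, r1 _ _ h', r2, r3]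
    intro e
    have e3 : RA gr C (fun l => φ (pos hc m l)) j = True := congrArg (fun z => z.2.2) e
    exact hφ (e3.symm ▸ trivial)
  · exact absurd (fun A g => by
      rw [h A g, h' A g, sh2, sh2, hom_op1, hom_op1, V2, V2, hfst A g]) hyy

/-- Step 2: a system separated by coded systems, whose decoding is separated by `Z`, is separated
by codes of members of `Z`. -/
theorem mem_of_Psi (hc : Coding gf gr) {Z : Set (Sys.{u} L)} (hZ : triv L ∈ Z) {B : Sys.{u} tau}
    (hB : B ∈ Sep ((fun A : Sys.{u} L => Phi gf gr A) '' Set.univ)) (hP : Psi hc B ∈ Sep Z) :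
    B ∈ Sep ((fun A : Sys.{u} L => Phi gf gr A) '' Z) := by
  refine ⟨?_, fun n r => Empty.elim r⟩
  intro x y hxy
  obtain ⟨_, ⟨A0, -, rfl⟩, h0, hh0⟩ := hB.1 _ _ hxy
  by_cases h1 : fst' (h0 x) = fst' (h0 y)
  · have h2 : snd' (h0 x) ≠ snd' (h0 y) := fun h => hh0 (phi_ext h1 h)
    obtain ⟨i, hi⟩ := Function.ne_iff.1 h2
    obtain ⟨C, hC, ρ, H, hH, hρ⟩ := sepT hc hZ hP h0 (sh i x) (sh i y) (by
      intro h
      apply hi
      have := h A0 h0
      rw [sh2, sh2] at this
      exact this)
    refine ⟨_, ⟨C, hC, rfl⟩, H, fun e => hρ ?_⟩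
    rw [← hH, ← hH, e]
  · obtain ⟨i, hi⟩ := Function.ne_iff.1 h1
    have hne : pos hc x i ≠ pos hc y i := by
      intro e
      apply hi
      have := congrArg (ev hc h0) e
      have e1 := congrFun (ev_pos hc h0 x) i
      have e2 := congrFun (ev_pos hc h0 y) i
      rw [← e1, ← e2]
      exact this
    obtain ⟨C, hC, φ, hφ⟩ := hP.1 _ _ hne
    obtain ⟨ρ, r1, r2, r3, -⟩ := lemmaR hc φ h0
      (fun _ => (fun _ => Classical.arbitrary _, 0, False)) (fun _ _ _ => rfl)
    obtain ⟨H, hH⟩ := lemmaH hc φ ρ r1 r2 r3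
    refine ⟨_, ⟨C, hC, rfl⟩, H, fun e => hφ ?_⟩
    rw [hH, hH] at e
    exact congrFun (congrArg fst' e) i


/-- homomorphisms between coded systems are determined at position zero by position zero -/
theorem hom_zero {A C : Sys.{u} L} (h : Phi gf gr A →[tau] Phi gf gr C) {x y : Phi gf gr A}
    (e : fst' x 0 = fst' y 0) : fst' (h x) 0 = fst' (h y) 0 := by
  have h1 : op2 TFun.d (op2 TFun.b x y) y = y := by
    apply phi_ext
    · funext i
      rw [d1, b1]
      split_ifs with hi
      · rw [e, hi]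
      · rfl
    · rw [d2]
  have h2 := congrArg (fun z => fst' (h z) 0) h1
  simpa [hom_op2] using h2

theorem ev_id_inj (hc : Coding gf gr) {A : Sys.{u} L} :
    Function.Injective (ev hc (Hom.id tau (Phi gf gr A))) := by
  intro c c' e
  obtain ⟨x, rfl⟩ := cl_surj hc c
  obtain ⟨y, rfl⟩ := cl_surj hc c'
  rw [cl_eq]
  intro C h
  exact hom_zero h e

theorem ev_id_rel (hc : Coding gf gr) {A : Sys.{u} L} {n : ℕ} (r : L.Relations n)
    (c : Fin n → Psi hc (Phi gf gr A))
    (hr : RelMap r fun j => ev hc (Hom.id tau (Phi gf gr A)) (c j)) : RelMap r c := by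
  rw [ev_rel]
  intro C h
  obtain ⟨i, hi⟩ := hc.hr ⟨n, r⟩
  obtain ⟨m, hm⟩ := exists_tup gf gr
    (fun j => if hj : j < n then
      (show Quotient (setA gf gr (Phi gf gr A)) from c ⟨j, hj⟩).out
      else Classical.arbitrary (Phi gf gr A)) n (hc.ar ⟨n, r⟩)
  have hm' : ∀ (C : Sys.{u} L) (h : Phi gf gr A →[tau] Phi gf gr C),
      (RA gr C (fst' (h m)) i ↔ RelMap r fun j => ev hc h (c j)) := by
    intro C h
    unfold RA
    rw [hi]
    have : (fun j : Fin n => fst' (h m) ((j : ℕ) : ZMod k)) = fun j => ev hc h (c j) := by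
      funext j
      rw [hm C h j j.2, dif_pos j.2]
      exact ev_out hc h (c j)
    change (RelMap r fun j : Fin n => fst' (h m) ((j : ℕ) : ZMod k)) ↔ _
    rw [this]
  have hR : RA gr A (fst' m) i := (hm' A (Hom.id tau _)).2 hr
  rw [← hm' C h]
  have e : op2 TFun.b (sh i (op1 TFun.U m)) m = op2 TFun.b (sh i (op1 TFun.V m)) m := by
    have s1 := fun (x : Phi gf gr A) => sh1 i x A (Hom.id tau _)
    have s2 := fun (x : Phi gf gr A) => sh2 i x A (Hom.id tau _)
    simp only [Hom.id_apply] at s1 s2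
    apply phi_ext
    · funext l
      rw [b1, b1, s1, s1, U1, V1]
    · funext l
      rw [b2, b2, s2, s2, U2, V2]
      simp [hR]
  have e2 := congrArg (fun z => snd' (h z) 0) e
  simp only [hom_op2, b2, if_true, sh2, hom_op1, U2, V2, Prod.mk.injEq, true_and] at e2
  rw [← e2]
  trivial

/-- Step 3: `A` embeds in the decoding of its code. -/
theorem emb_Psi (hc : Coding gf gr) (A : Sys.{u} L) : Nonempty (A ↪[L] Psi hc (Phi gf gr A)) := by
  let t0 : ZMod k → TC k A := fun _ => (fun _ => Classical.arbitrary _, 0, True)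
  let g : A → Psi hc (Phi gf gr A) := fun a => cl hc (mk' (fun _ => a) t0)
  have hg : ∀ a, ev hc (Hom.id tau (Phi gf gr A)) (g a) = a := fun a => rfl
  refine ⟨{ toFun := g, inj' := ?_, map_fun' := ?_, map_rel' := ?_ }⟩
  · intro a b hab
    rw [← hg a, ← hg b, hab]
  · intro n f x
    apply ev_id_inj hc
    rw [hg, ev_fun]
    rfl
  · intro n r x
    constructor
    · intro h
      exact (evH hc (Hom.id tau (Phi gf gr A))).map_rel r _ h
    · intro h
      exact ev_id_rel hc r _ h

/-! ### Ultraproducts of coded systems -/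

/-- the value of a map to `ZMod k` along an ultrafilter -/
theorem exists_lim {ι : Type u} (U : Ultrafilter ι) (g : ι → ZMod k) : ∃ j, ∀ᶠ i in U, g i = j := by
  obtain ⟨j, hj⟩ := (U.map g).eq_pure_of_finite
  refine ⟨j, ?_⟩
  have : ({j} : Set (ZMod k)) ∈ U.map g := by rw [hj]; exact Set.mem_singleton j
  exact this

/-- the limit -/
def lim' {ι : Type u} (U : Ultrafilter ι) (g : ι → ZMod k) : ZMod k := (exists_lim U g).choose

theorem lim_spec {ι : Type u} (U : Ultrafilter ι) (g : ι → ZMod k) : ∀ᶠ i in U, g i = lim' U g :=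
  (exists_lim U g).choose_spec

theorem lim_eq {ι : Type u} (U : Ultrafilter ι) (g : ι → ZMod k) (j : ZMod k)
    (h : ∀ᶠ i in U, g i = j) : lim' U g = j := by
  obtain ⟨i, h1, h2⟩ := ((lim_spec U g).and h).exists
  rw [← h1, h2]

theorem prop_lim {ι : Type u} (U : Ultrafilter ι) (P Q : ι → Prop) :
    ((∀ᶠ i in U, P i) = (∀ᶠ i in U, Q i)) ↔ ∀ᶠ i in U, P i = Q i := by
  constructor
  · intro h
    by_cases hP : ∀ᶠ i in U, P i
    · have hQ : ∀ᶠ i in U, Q i := h ▸ hP
      filter_upwards [hP, hQ] with i h1 h2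
      exact propext ⟨fun _ => h2, fun _ => h1⟩
    · have hQ : ¬ ∀ᶠ i in U, Q i := h ▸ hP
      rw [← Ultrafilter.eventually_not] at hP hQ
      filter_upwards [hP, hQ] with i h1 h2
      exact propext ⟨fun h => absurd h h1, fun h => absurd h h2⟩
  · intro h
    apply propext
    exact Filter.eventually_congr (h.mono fun i hi => iff_of_eq hi)

/-- from ultraproducts of coded systems to coded ultraproducts, on representatives -/
def E0 {ι : Type u} (U : Ultrafilter ι) (A : ι → Sys.{u} L) (z : ∀ i, Phi gf gr (A i)) :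
    Phi gf gr (Sys.ultra U A) :=
  mk' (fun l => um fun i => fst' (z i) l)
    (fun l => (fun l' => um fun i => (snd' (z i) l).1 l', lim' U fun i => (snd' (z i) l).2.1,
      ∀ᶠ i in U, (snd' (z i) l).2.2))

theorem E0_eq {ι : Type u} (U : Ultrafilter ι) (A : ι → Sys.{u} L) (z z' : ∀ i, Phi gf gr (A i)) :
    E0 U A z = E0 U A z' ↔ ∀ᶠ i in U, z i = z' i := by
  constructor
  · intro h
    have h1 : ∀ l, (um fun i => fst' (z i) l : Sys.ultra U A) = um fun i => fst' (z' i) l :=
      fun l => congrFun (congrArg fst' h) l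
    have h2 : ∀ l l', (um fun i => (snd' (z i) l).1 l' : Sys.ultra U A) =
        um fun i => (snd' (z' i) l).1 l' :=
      fun l l' => congrFun (congrArg Prod.fst (congrFun (congrArg snd' h) l)) l'
    have h3 : ∀ l, (lim' U fun i => (snd' (z i) l).2.1) = lim' U fun i => (snd' (z' i) l).2.1 :=
      fun l => congrArg (fun t => t.2.1) (congrFun (congrArg snd' h) l)
    have h4 : ∀ l, (∀ᶠ i in U, (snd' (z i) l).2.2) = (∀ᶠ i in U, (snd' (z' i) l).2.2) :=
      fun l => congrArg (fun t => t.2.2) (congrFun (congrArg snd' h) l)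
    simp only [um_eq] at h1 h2
    simp only [prop_lim] at h4
    have h3' : ∀ l, ∀ᶠ i in U, (snd' (z i) l).2.1 = (snd' (z' i) l).2.1 := by
      intro l
      filter_upwards [lim_spec U fun i => (snd' (z i) l).2.1,
        lim_spec U fun i => (snd' (z' i) l).2.1] with i e1 e2
      rw [e1, e2, h3]
    have h2' : ∀ l, ∀ᶠ i in U, ∀ l', (snd' (z i) l).1 l' = (snd' (z' i) l).1 l' :=
      fun l => Filter.eventually_all.2 (h2 l)
    filter_upwards [Filter.eventually_all.2 h1, Filter.eventually_all.2 h2',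
      Filter.eventually_all.2 h3', Filter.eventually_all.2 h4] with i e1 e2 e3 e4
    apply phi_ext
    · exact funext e1
    · funext l
      exact Prod.ext (funext (e2 l)) (Prod.ext (e3 l) (e4 l))
  · intro h
    apply phi_ext
    · funext l
      exact um_eq.2 (h.mono fun i hi => by rw [hi])
    · funext l
      refine Prod.ext ?_ (Prod.ext ?_ ?_)
      · funext l'
        exact um_eq.2 (h.mono fun i hi => by rw [hi])
      · apply lim_eq
        filter_upwards [h, lim_spec U fun i => (snd' (z' i) l).2.1] with i h1 h2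
        rw [h1, h2]
        rfl
      · exact (prop_lim U _ _).2 (h.mono fun i hi => by rw [hi])

/-- Step 4: ultraproducts of coded systems are separated by coded ultraproducts. -/
theorem ultra_Phi {ι : Type u} (U : Ultrafilter ι) (A : ι → Sys.{u} L)
    {X : Set (Sys.{u} L)} (hX : Sys.ultra U A ∈ X) :
    Sys.ultra U (fun i => Phi gf gr (A i)) ∈ Sep ((fun A : Sys.{u} L => Phi gf gr A) '' X) := by
  let E : Sys.ultra U (fun i => Phi gf gr (A i)) → Phi gf gr (Sys.ultra U A) := fun c =>
    Quotient.lift (fun z => E0 U A z) (fun z z' h => (E0_eq U A z z').2 h)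
      (show Quotient ((U : Filter ι).productSetoid fun i => (Phi gf gr (A i) : Type u)) from c)
  have hE : ∀ z, E (um z) = E0 U A z := fun z => rfl
  have ho1 : ∀ (f : TFun 1) (z : ∀ i, Phi gf gr (A i)),
      op1 f (um z : Sys.ultra U fun i => Phi gf gr (A i)) = um fun i => op1 f (z i) := by
    intro f z
    unfold op1
    have := ultra_funMap (L := tau) (U := U) (fun i => Phi gf gr (A i)) f ![z]
    have e : (fun j => (um ((![z] : Fin 1 → ∀ i, Phi gf gr (A i)) j) :
        Sys.ultra U fun i => Phi gf gr (A i))) = ![um z] := by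
      funext j; fin_cases j; rfl
    rw [e] at this
    rw [this]
    congr 1
    funext i
    congr 1
    funext j; fin_cases j; rfl
  have ho2 : ∀ (f : TFun 2) (z w : ∀ i, Phi gf gr (A i)),
      op2 f (um z : Sys.ultra U fun i => Phi gf gr (A i)) (um w) = um fun i => op2 f (z i) (w i) := by
    intro f z w
    unfold op2
    have := ultra_funMap (L := tau) (U := U) (fun i => Phi gf gr (A i)) f ![z, w]
    have e : (fun j => (um ((![z, w] : Fin 2 → ∀ i, Phi gf gr (A i)) j) :
        Sys.ultra U fun i => Phi gf gr (A i))) = ![um z, um w] := by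
      funext j; fin_cases j <;> rfl
    rw [e] at this
    rw [this]
    congr 1
    funext i
    congr 1
    funext j; fin_cases j <;> rfl
  have hhom : ∃ h : Sys.ultra U (fun i => Phi gf gr (A i)) →[tau] Phi gf gr (Sys.ultra U A),
      ∀ x, h x = E x := by
    apply mkHom
    · intro f c
      obtain ⟨z, rfl⟩ := um_surj c
      rw [ho1, hE, hE]
      cases f
      · rfl
      · apply phi_ext
        · funext l
          rw [F1]
          change (um fun i => FA gf (A i) (fst' (z i)) l : Sys.ultra U A) =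
            FA gf (Sys.ultra U A) (fun l => um fun i => fst' (z i) l) l
          unfold FA
          cases gf l with
          | none => rfl
          | some s => exact (ultra_funMap A s.2 _).symm
        · rfl
      · apply phi_ext
        · rfl
        · funext l
          refine Prod.ext rfl (Prod.ext ?_ ?_)
          · exact lim_eq U _ _ (Filter.Eventually.of_forall fun i => rfl)
          · exact propext ⟨fun _ => trivial, fun _ => Filter.Eventually.of_forall fun i => trivial⟩
      · apply phi_ext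
        · rfl
        · funext l
          refine Prod.ext rfl (Prod.ext ?_ ?_)
          · exact lim_eq U _ _ (Filter.Eventually.of_forall fun i => rfl)
          · change (∀ᶠ i in U, RA gr (A i) (fst' (z i)) l) =
              RA gr (Sys.ultra U A) (fun l => um fun i => fst' (z i) l) l
            apply propext
            unfold RA
            cases gr l with
            | none => exact ⟨fun _ => trivial, fun _ => Filter.Eventually.of_forall fun i => trivial⟩
            | some s => exact (ultra_relMap A s.2 _).symm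
    · intro f c c'
      obtain ⟨z, rfl⟩ := um_surj c
      obtain ⟨w, rfl⟩ := um_surj c'
      rw [ho2, hE, hE, hE]
      cases f
      · apply phi_ext
        · funext l
          rw [b1]
          change (um fun i => if l = 0 then fst' (z i) 0 else fst' (w i) l : Sys.ultra U A) =
            if l = 0 then (um fun i => fst' (z i) 0) else um fun i => fst' (w i) l
          split_ifs <;> rfl
        · funext l
          rw [b2]
          by_cases hl : l = 0
          · subst hl
            rw [if_pos rfl]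
            have : ∀ i, snd' (op2 TFun.b (z i) (w i)) 0 = snd' (z i) 0 := fun i => by
              rw [b2, if_pos rfl]
            unfold E0
            rw [snd_mk, snd_mk]
            simp only [this]
          · rw [if_neg hl]
            have : ∀ i, snd' (op2 TFun.b (z i) (w i)) l = snd' (w i) l := fun i => by
              rw [b2, if_neg hl]
            unfold E0
            rw [snd_mk, snd_mk]
            simp only [this]
      · rfl
  obtain ⟨h, hh⟩ := hhom
  refine ⟨?_, fun n r => Empty.elim r⟩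
  intro c c' hne
  refine ⟨_, ⟨_, hX, rfl⟩, h, fun e => hne ?_⟩
  obtain ⟨z, rfl⟩ := um_surj c
  obtain ⟨w, rfl⟩ := um_surj c'
  rw [hh, hh, hE, hE, E0_eq] at e
  exact um_eq.2 e

end coding

/-! ### The lattice embedding -/

/-- The signature `L` has finitely many operation symbols and finitely many relation symbols. -/
def FiniteSignature (L : FirstOrder.Language.{0, 0}) : Prop :=
  Finite (Σ n, L.Functions n) ∧ Finite (Σ n, L.Relations n)

theorem exists_coding (hL : FiniteSignature L) : ∃ (k : ℕ) (_ : NeZero k)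
    (gf : ZMod k → Option (Σ n, L.Functions n)) (gr : ZMod k → Option (Σ n, L.Relations n)),
    Coding gf gr := by
  classical
  obtain ⟨h1, h2⟩ := hL
  have := Fintype.ofFinite (Σ n, L.Functions n)
  have := Fintype.ofFinite (Σ n, L.Relations n)
  let k : ℕ := Fintype.card (Σ n, L.Functions n) + Fintype.card (Σ n, L.Relations n) +
    (∑ s : (Σ n, L.Functions n), s.1) + (∑ s : (Σ n, L.Relations n), s.1) + 1
  have hk : NeZero k := ⟨by omega⟩
  have enc : ∀ (S : Type) [Fintype S], Fintype.card S ≤ k →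
      ∃ g : ZMod k → Option S, ∀ s, ∃ i, g i = some s := by
    intro S _ hS
    have hS' : Fintype.card S ≤ Fintype.card (ZMod k) := by rw [ZMod.card]; exact hS
    obtain ⟨e⟩ := Function.Embedding.nonempty_of_card_le hS'
    refine ⟨fun i => if h : ∃ s, e s = i then some h.choose else none, fun s => ⟨e s, ?_⟩⟩
    have hex : ∃ s', e s' = e s := ⟨s, rfl⟩
    change (if h : ∃ s', e s' = e s then some h.choose else none) = some s
    rw [dif_pos hex]
    exact congrArg some (e.injective hex.choose_spec)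
  obtain ⟨gf, hgf⟩ := enc (Σ n, L.Functions n) (by omega)
  obtain ⟨gr, hgr⟩ := enc (Σ n, L.Relations n) (by omega)
  refine ⟨k, hk, gf, gr, ⟨hgf, hgr, fun s => ?_, fun s => ?_⟩⟩
  · have := Finset.single_le_sum (f := fun s : (Σ n, L.Functions n) => s.1)
      (fun _ _ => Nat.zero_le _) (Finset.mem_univ s)
    omega
  · have := Finset.single_le_sum (f := fun s : (Σ n, L.Relations n) => s.1)
      (fun _ _ => Nat.zero_le _) (Finset.mem_univ s)
    omega

theorem finite_tau : FiniteSignature tau := by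
  constructor
  · have : Finite (Σ n, TFun n) := by
      apply Finite.of_injective (β := Fin 6) (fun s => match s with
        | ⟨_, TFun.p⟩ => 0
        | ⟨_, TFun.F⟩ => 1
        | ⟨_, TFun.U⟩ => 2
        | ⟨_, TFun.V⟩ => 3
        | ⟨_, TFun.b⟩ => 4
        | ⟨_, TFun.d⟩ => 5)
      rintro ⟨_, s⟩ ⟨_, t⟩ h
      cases s <;> cases t <;> first | rfl | (exact absurd h (by decide))
    exact this
  · have : IsEmpty (Σ n : ℕ, tau.Relations n) := ⟨fun s => Empty.elim s.2⟩
    infer_instance

/-- The quasivariety of all systems of signature `tau`. -/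
def allTau : Quasivariety.{u} tau where
  cls := Set.univ
  isQ := ⟨fun _ _ _ _ => trivial, fun _ _ _ => trivial, fun _ _ _ _ => trivial⟩

theorem exists_latticeHom (M : Quasivariety.{u} L) (hL : FiniteSignature L) :
    ∃ f : LatticeHom (Lq M) (Lq allTau.{u}), Function.Injective f := by
  obtain ⟨k, hk, gf, gr, hc⟩ := exists_coding hL
  let P : Set (Sys.{u} L) → Set (Sys.{u} tau) := fun X => Sep ((fun A : Sys.{u} L => Phi gf gr A) '' X)
  have hPQ : ∀ X : Quasivariety.{u} L, IsQuasivariety (P X.cls) := by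
    intro X
    apply Sep_isQuasivariety
    intro ι U B hB
    choose A hA hAB using hB
    have e : B = fun i => Phi gf gr (A i) := funext fun i => (hAB i).symm
    rw [e]
    exact ultra_Phi U A (X.isQ.ultra ι U A hA)
  have hmem : ∀ (X : Quasivariety.{u} L) (B : Sys.{u} tau),
      B ∈ P X.cls ↔ B ∈ P Set.univ ∧ Psi hc B ∈ X.cls := by
    intro X B
    constructor
    · intro h
      exact ⟨Sep_mono (Set.image_mono (Set.subset_univ _)) h, X.isQ.sep_subset (Psi_mem hc h)⟩
    · rintro ⟨h1, h2⟩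
      exact mem_of_Psi hc X.isQ.triv_mem h1 (subset_Sep _ h2)
  let f : Lq M → Lq allTau.{u} := fun X => ⟨⟨P X.1.cls, hPQ X.1⟩, Set.subset_univ _⟩
  have hle : ∀ {X Y : Lq M}, X ≤ Y → f X ≤ f Y := fun h => Sep_mono (Set.image_mono h)
  refine ⟨{ toFun := f, map_sup' := ?_, map_inf' := ?_ }, ?_⟩
  · intro X Y
    apply le_antisymm
    · intro B hB
      have h := (hmem (X.1.join Y.1) B).1 hB
      have hB' : B ∈ P (X.1.cls ∪ Y.1.cls) :=
        mem_of_Psi hc (Or.inl X.1.isQ.triv_mem) h.1 (mem_join.1 h.2)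
      intro Z hX hY
      refine Z.isQ.sep_subset (Sep_mono ?_ hB')
      rintro _ ⟨A, hA | hA, rfl⟩
      · exact hX (subset_Sep _ ⟨A, hA, rfl⟩)
      · exact hY (subset_Sep _ ⟨A, hA, rfl⟩)
    · exact sup_le (hle le_sup_left) (hle le_sup_right)
  · intro X Y
    apply le_antisymm
    · exact le_inf (hle inf_le_left) (hle inf_le_right)
    · intro B hB
      have h1 := (hmem X.1 B).1 hB.1
      have h2 := (hmem Y.1 B).1 hB.2
      exact (hmem (X.1.meet Y.1) B).2 ⟨h1.1, h1.2, h2.2⟩
  · have key : ∀ X Y : Lq M, f X = f Y → X ≤ Y := by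
      intro X Y h A hA
      have h1 : Phi gf gr A ∈ P X.1.cls := subset_Sep _ ⟨A, hA, rfl⟩
      have h2 : Phi gf gr A ∈ P Y.1.cls := by
        have : f X ≤ f Y := le_of_eq h
        exact this h1
      have h3 := ((hmem Y.1 _).1 h2).2
      exact Y.1.isQ.sub _ _ (emb_Psi hc A) h3
    intro X Y h
    exact le_antisymm (key X Y h) (key Y X h.symm)

/-- There is a quasivariety `K` (even one of a finite signature) such that, for every
quasivariety `M` of finite signature, the lattice `Lq M` of subquasivarieties of `M` is contained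
as a sublattice in `Lq K`. -/
theorem result : ∃ (L : FirstOrder.Language.{0, 0}) (K : Quasivariety.{u} L), FiniteSignature L ∧
    ∀ (L' : FirstOrder.Language.{0, 0}) (M : Quasivariety.{u} L'), FiniteSignature L' →
      ∃ f : LatticeHom (Lq M) (Lq K), Function.Injective f :=
  ⟨tau, allTau, finite_tau, fun _ M hL => exists_latticeHom M hL⟩

end Pool.Agent.Results.MP_7a870e_al.FiniteSignatureK
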